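import Mathlib
import Pool.Agent.N70.ES.Stm4

/-!
# ES/TD: a subgroup of small index with trivial core in an alternating fibre power
-/

set_option autoImplicit false

namespace Pool.Agent.N624.ES.TD

open Pool.Agent.N70.EP.Voc

/-- An even permutation which maps `i` to `j`. -/
theorem exists_even {n : ℕ} (hn : 3 ≤ n) (i j : Fin n) :
    ∃ σ : Equiv.Perm (Fin n), Equiv.Perm.sign σ = 1 ∧ σ i = j := by
  by_cases hij : i = j
  · exact ⟨1, map_one _, by rw [hij]; rfl⟩
  obtain ⟨c, hc⟩ : ∃ c : Fin n, c ∉ ({i, j} : Finset (Fin n)) := by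
    by_contra hcon
    push Not at hcon
    have h1 : (Finset.univ : Finset (Fin n)) ⊆ {i, j} := fun x _ => hcon x
    have h2 := Finset.card_le_card h1
    have h3 : ({i, j} : Finset (Fin n)).card ≤ 2 := Finset.card_le_two
    rw [Finset.card_univ, Fintype.card_fin] at h2
    omega
  rw [Finset.mem_insert, Finset.mem_singleton, not_or] at hc
  refine ⟨Equiv.swap i j * Equiv.swap j c, ?_, ?_⟩
  · rw [map_mul, Equiv.Perm.sign_swap hij, Equiv.Perm.sign_swap (Ne.symm hc.2)]
    rfl
  · rw [Equiv.Perm.mul_apply, Equiv.swap_apply_of_ne_of_ne hij (Ne.symm hc.1),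
      Equiv.swap_apply_left]

/-- The imprimitive action of the wreath product. -/
@[reducible] def act (B : Type) [Group B] (n : ℕ) : MulAction (Wreath B n) (B × Fin n) where
  smul w x := (w.left (w.right x.2) * x.1, w.right x.2)
  one_smul x := by
    change ((1 : Wreath B n).left ((1 : Wreath B n).right x.2) * x.1,
      (1 : Wreath B n).right x.2) = x
    rw [SemidirectProduct.one_left, SemidirectProduct.one_right]
    simp
  mul_smul w v x := by
    change ((w * v).left ((w * v).right x.2) * x.1, (w * v).right x.2) =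
      (w.left (w.right (v.right x.2)) * (v.left (v.right x.2) * x.1), w.right (v.right x.2))
    have h1 : (w * v).right x.2 = w.right (v.right x.2) := rfl
    have h2 : (w * v).left (w.right (v.right x.2)) =
        w.left (w.right (v.right x.2)) * v.left (v.right x.2) := by
      change w.left (w.right (v.right x.2)) * v.left (w.right⁻¹ (w.right (v.right x.2))) = _
      rw [show w.right⁻¹ (w.right (v.right x.2)) = v.right x.2 from w.right.symm_apply_apply _]
    rw [h1, h2, mul_assoc]

section

variable {W B : Type} [Group W] [Finite W] [Group B] [Finite B] (a : B →* W) (χ : W →* ℤˣ)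
  {n : ℕ}

/-- The element of an even permutation. -/
def ev (σ : Equiv.Perm (Fin n)) (hσ : Equiv.Perm.sign σ = 1) : TwPow a χ n :=
  ⟨(⟨1, σ⟩, 1), ⟨fun _ => map_one a, by
    change Equiv.Perm.sign σ = χ 1
    rw [map_one, hσ]⟩⟩

omit [Finite W] in
theorem core_bot (hn : 3 ≤ n) : ∃ U : Subgroup (TwPow a χ n), U.normalCore = ⊥ ∧
    U.index ≤ Nat.card B * n := by
  letI iA : MulAction (Wreath B n) (B × Fin n) := act B n
  letI iP : MulAction (TwPow a χ n) (B × Fin n) :=
    MulAction.compHom (B × Fin n) ((MonoidHom.fst (Wreath B n) W).comp (TwPow a χ n).subtype)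
  let i₀ : Fin n := ⟨0, by omega⟩
  have hdef : ∀ (w : TwPow a χ n) (x : B × Fin n),
      w • x = (w.1.1.left (w.1.1.right x.2) * x.1, w.1.1.right x.2) := fun _ _ => rfl
  refine ⟨MulAction.stabilizer (TwPow a χ n) ((1 : B), i₀), ?_, ?_⟩
  · rw [eq_bot_iff]
    intro x hx
    have hfix : ∀ i : Fin n, x • ((1 : B), i) = ((1 : B), i) := by
      intro i
      obtain ⟨σ, h1, h2⟩ := exists_even hn i₀ i
      have h3 : ev a χ σ h1 • ((1 : B), i₀) = ((1 : B), i) := by
        rw [hdef]
        change ((1 : Fin n → B) (σ i₀) * 1, σ i₀) = ((1 : B), i)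
        rw [h2]
        simp
      have h4 : (ev a χ σ h1)⁻¹ * x * ev a χ σ h1 ∈
          MulAction.stabilizer (TwPow a χ n) ((1 : B), i₀) := by
        have := hx (ev a χ σ h1)⁻¹
        rw [inv_inv] at this
        exact this
      rw [MulAction.mem_stabilizer_iff, mul_smul, mul_smul, inv_smul_eq_iff, h3] at h4
      exact h4
    have hr : x.1.1.right = 1 := by
      ext i
      have := congrArg (fun z : B × Fin n => (z.2 : ℕ)) (hfix i)
      simpa [hdef] using this
    have hl : ∀ i, x.1.1.left i = 1 := by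
      intro i
      have := congrArg Prod.fst (hfix i)
      rw [hdef] at this
      simp only [hr, Equiv.Perm.one_apply, mul_one] at this
      exact this
    have h2 : x.1.2 = 1 := by
      have h := x.2.1 i₀
      rw [hl i₀, map_one] at h
      exact h.symm
    rw [Subgroup.mem_bot]
    apply Subtype.ext
    refine Prod.ext ?_ h2
    exact SemidirectProduct.ext (funext hl) hr
  · rw [MulAction.index_stabilizer]
    refine (Set.ncard_le_ncard (Set.subset_univ _) Set.finite_univ).trans ?_
    rw [Set.ncard_univ, Nat.card_prod, Nat.card_fin]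

theorem card_ge (hn : 3 ≤ n) : n.factorial ≤ 2 * Nat.card (TwPow a χ n) := by
  have hf : Finite (Wreath B n) := Finite.of_equiv _ SemidirectProduct.equivProd.symm
  have hnt : Nontrivial (Fin n) := Fin.nontrivial_iff_two_le.2 (by omega)
  have h1 : Nat.card (alternatingGroup (Fin n)) ≤ Nat.card (TwPow a χ n) := by
    refine Nat.card_le_card_of_injective
      (fun σ : alternatingGroup (Fin n) => ev a χ σ.1 (Equiv.Perm.mem_alternatingGroup.1 σ.2)) ?_
    intro σ τ h
    apply Subtype.ext
    exact congrArg (fun z : TwPow a χ n => z.1.1.right) h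
  have h2 : 2 * Nat.card (alternatingGroup (Fin n)) = Nat.card (Equiv.Perm (Fin n)) :=
    two_mul_nat_card_alternatingGroup
  rw [Nat.card_perm, Nat.card_fin] at h2
  omega

end

theorem bound {b n : ℕ} (hb : 1 ≤ b) (hn : b ^ 2 + 10 ≤ n) :
    2 * (8 * (b * n) * (b * n + 1)) ≤ n.factorial := by
  have h1 : 8 * (b * n) * (b * n + 1) ≤ 16 * (b ^ 2 * n ^ 2) := by
    have : 1 ≤ b * n := Nat.one_le_iff_ne_zero.2 (Nat.mul_ne_zero (by omega) (by omega))
    nlinarith
  have h3 : ∀ m : ℕ, 32 * (m + 10) ^ 2 ≤ (m + 9).factorial := by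
    intro m
    induction m with
    | zero => decide
    | succ m ih =>
      have e : (m + 1 + 9).factorial = (m + 10) * (m + 9).factorial := by
        rw [show m + 1 + 9 = (m + 9) + 1 by ring, Nat.factorial_succ]
      rw [e]
      have : 32 * (m + 1 + 10) ^ 2 ≤ (m + 10) * (32 * (m + 10) ^ 2) := by nlinarith
      exact this.trans (Nat.mul_le_mul_left _ ih)
  obtain ⟨m, rfl⟩ : ∃ m, n = m + 10 := ⟨n - 10, by omega⟩
  have h5 : (m + 10).factorial = (m + 10) * (m + 9).factorial := Nat.factorial_succ (m + 9)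
  calc 2 * (8 * (b * (m + 10)) * (b * (m + 10) + 1)) ≤ 2 * (16 * (b ^ 2 * (m + 10) ^ 2)) :=
        Nat.mul_le_mul_left _ h1
    _ = b ^ 2 * (32 * (m + 10) ^ 2) := by ring
    _ ≤ (m + 10) * (m + 9).factorial := Nat.mul_le_mul (by omega) (h3 m)
    _ = (m + 10).factorial := h5.symm

theorem t_td : Pool.Agent.N70.ES.St_td := by
  intro W B _ _ _ _ a _
  refine ⟨Nat.card B ^ 2 + 10, fun n hn χ => ?_⟩
  have hB : 1 ≤ Nat.card B := Nat.card_pos
  have h1 := card_ge a χ (n := n) (by omega)
  have h2 := bound hB hn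
  have h3 : 10 ≤ Nat.card B * n := by nlinarith
  refine ⟨by nlinarith, ?_⟩
  obtain ⟨U, hU, hi⟩ := core_bot a χ (n := n) (by omega)
  refine ⟨U, hU, ?_⟩
  have h4 : 8 * U.index * (U.index + 1) ≤ 8 * (Nat.card B * n) * (Nat.card B * n + 1) := by
    gcongr
  omega

end Pool.Agent.N624.ES.TD
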